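import Pool.Agent.Helper58.DM.Goals

/-!
# Packet M_FIN (MP_06d934_gt, project DM): the theorem at the level of matrices.
-/

set_option autoImplicit false

namespace Pool.Agent.Helper12.DM

open Pool.Agent.Helper58.DH Pool.Agent.Helper58.DM

theorem main (hE : M_EIN) (hK : K_KC) {I : Type} [Fintype I] [DecidableEq I] (F : Frame I)
    (p q m : ℕ) (hS : Sizes F p q m) (hk : 0 < kk F) (hF : Full F) (hG : GoodW F)
    (hC : Concl (-F.η) p q m) : ConclM F p q m := by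
  obtain ⟨⟨x, hx, hr, hn⟩, h2⟩ := hC
  have ein : ∀ w : Fin 6 → ℝ, (∀ c, 0 < w c) → (Einstein F (1 / 2) w ↔
      ∀ c, ric (dF (-F.η) p q m) (AF (-F.η) p q m) w c = 1 / 2) := fun w hw ↦
    hE I F p q m w (1 / 2) hS hk hF hw
  by_cases h : {w : Fin 6 → ℝ | (∀ c, 0 < w c) ∧ Einstein F (1 / 2) w}.Finite ∧
      ∀ w : Fin 6 → ℝ, (∀ c, 0 < w c) → Einstein F (1 / 2) w →
        NonDegC (dF (-F.η) p q m) (AF (-F.η) p q m) w
  · obtain ⟨hf, hN⟩ := h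
    have hZ : ∀ w, w ∈ hf.toFinset ↔ (∀ c, 0 < w c) ∧ Einstein F (1 / 2) w := fun w ↦ by
      rw [Set.Finite.mem_toFinset]
      rfl
    obtain ⟨Y, hY, hc, hYK⟩ := h2 hf.toFinset
      (fun w ↦ (hZ w).trans (and_congr_right fun hw ↦ ein w hw))
      fun w hw ↦ hN w ((hZ w).1 hw).1 ((hZ w).1 hw).2
    refine ⟨Y, Finset.card_pos.1 (by omega), fun w hw ↦ ?_, fun _ _ ↦ hc⟩
    have h1 := (hZ w).1 (hY hw)
    exact ⟨h1.1, h1.2, fun h ↦ hYK w hw (hK I F w hk hG hF h1.1 h)⟩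
  · refine ⟨{x}, Finset.singleton_nonempty x, fun y hy ↦ ?_, fun h1 h3 ↦ (h ⟨h1, h3⟩).elim⟩
    rw [Finset.mem_singleton.1 hy]
    exact ⟨hx, (ein x hx).2 hr, fun h ↦ hn (hK I F x hk hG hF hx h)⟩

theorem m_fin (h1 : F_ALL) (h2 : M_EIN) (h3 : K_GW) (h4 : K_KC) : M_FIN := by
  refine ⟨fun p q m hp hq hm hm2 ↦ ?_, fun p q r hp hq hr ↦ ?_⟩
  · obtain ⟨a, b, c, d⟩ := h3.1 p q m hp hq hm hm2
    exact main h2 h4 _ p q m c d b a (h1.1 p q m hp hq hm)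
  · obtain ⟨a, b, c, d⟩ := h3.2 p q r hp hq hr
    have h5 : -(FC p q r).η = 1 := neg_neg (1 : ℝ)
    refine main h2 h4 _ p q (2 * r) c d b a ?_
    rw [h5]
    exact h1.2 p q r hp hq hr

end Pool.Agent.Helper12.DM
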